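import Pool.Agent.Helper34_Sidon.Final

/-! MP_02f997_co: Sidon sets in the cube whose size exceeds `2 ^ (n / 2)` by an unbounded factor. -/

namespace Pool.Agent.Results.MP_02f997_co.UnboundedGain

/-- For every `n ≥ 2000000` there is a set `A` of 0-1 vectors in `ℤ ^ n` which is a Sidon set for the
coordinatewise addition of integers and has at least
`(1 / 10) * (n / log n) ^ (1 / 4) * 2 ^ (n / 2)` elements. -/
theorem result (n : ℕ) (hn : 2000000 ≤ n) :
    ∃ A : Finset (Fin n → ℤ),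
      (∀ x ∈ A, ∀ i, x i = 0 ∨ x i = 1) ∧
      (∀ x ∈ A, ∀ y ∈ A, ∀ z ∈ A, ∀ w ∈ A, x + y = z + w →
        (x = z ∧ y = w) ∨ (x = w ∧ y = z)) ∧
      1 / 10 * ((n : ℝ) / Real.log n) ^ (1 / 4 : ℝ) * (2 : ℝ) ^ ((n : ℝ) / 2) ≤ (A.card : ℝ) :=
  Pool.Agent.Helper34_Sidon.final n hn

end Pool.Agent.Results.MP_02f997_co.UnboundedGain
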